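import Pool.Agent.H224Z.SplitL

set_option autoImplicit false

namespace Pool.Agent.Results.MP_7b70e8_gt.AOmegaTauLarge

open Set

/-- An open cover of `X`: a family of open subsets of `X` with union `X`, not having `X` itself
as a member. -/
def IsOpenCover {X : Set ℝ} (U : Set (Set X)) : Prop :=
  (∀ u ∈ U, IsOpen u) ∧ ⋃₀ U = univ ∧ univ ∉ U

/-- The open large covers of `X`. -/
def LargeCovers (X : Set ℝ) : Set (Set (Set X)) :=
  {U | IsOpenCover U ∧ ∀ x : X, {u | u ∈ U ∧ x ∈ u}.Infinite}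

/-- The open omega-covers of `X`. -/
def OmegaCovers (X : Set ℝ) : Set (Set (Set X)) :=
  {U | IsOpenCover U ∧ ∀ F : Set X, F.Finite → ∃ u ∈ U, F ⊆ u}

/-- The open tau-covers of `X`. -/
def TauCovers (X : Set ℝ) : Set (Set (Set X)) :=
  {U | U ∈ LargeCovers X ∧
    ∀ x y : X, {u | u ∈ U ∧ x ∈ u ∧ y ∉ u}.Finite ∨ {u | u ∈ U ∧ y ∈ u ∧ x ∉ u}.Finite}

/-- `Split(A, B)`: every member of `A` is the union of two disjoint subfamilies each of which
contains a member of `B` as a subfamily. -/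
def Split {X : Set ℝ} (A B : Set (Set (Set X))) : Prop :=
  ∀ U ∈ A, ∃ V W : Set (Set X), V ∪ W = U ∧ Disjoint V W ∧
    (∃ V' ⊆ V, V' ∈ B) ∧ ∃ W' ⊆ W, W' ∈ B

/-- `Split(Ω, T)` implies `Split(Λ, Λ)` for every set of reals. -/
theorem result : ∀ X : Set ℝ, Split (OmegaCovers X) (TauCovers X) →
    Split (LargeCovers X) (LargeCovers X) := by
  intro X h U hU
  have h' : Pool.Agent.Helper185.Sel.SplitP
      (Pool.Agent.Helper185.Sel.OmegaOf (Pool.Agent.Helper185.Sel.OpenFam X))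
      (Pool.Agent.Helper185.Sel.TauOf (Pool.Agent.Helper185.Sel.OpenFam X)) := by
    intro U hU
    obtain ⟨V, W, h1, h2, ⟨V', h3, h4⟩, W', h5, h6⟩ := h U ⟨⟨hU.1, hU.2.1⟩, hU.2.2⟩
    exact ⟨V, W, h1, h2, ⟨V', h3, h4.1.1.1, h4.1.1.2, h4.1.2, h4.2⟩,
      W', h5, h6.1.1.1, h6.1.1.2, h6.1.2, h6.2⟩
  obtain ⟨V, W, h1, h2, h3, h4, h5⟩ := Pool.Agent.H224Z.SplitL.main h' hU.1.1 hU.2
  have cov : ∀ V : Set (Set X), V ⊆ U → Pool.Agent.H224Z.SplitL.IsLarge V →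
      V ∈ LargeCovers X := by
    intro V hV hl
    refine ⟨⟨fun u hu => hU.1.1 u (hV hu), ?_, fun hu => hU.1.2.2 (hV hu)⟩, hl⟩
    rw [eq_univ_iff_forall]
    intro x
    obtain ⟨u, hu, hx⟩ := (hl x).nonempty
    exact ⟨u, hu, hx⟩
  refine ⟨V, U \ V, union_sdiff_cancel h1, disjoint_sdiff_right, ⟨V, Subset.rfl, cov V h1 h4⟩,
    W, fun w hw => ⟨h2 hw, fun hv => Set.disjoint_left.1 h3 hv hw⟩, cov W h2 h5⟩

end Pool.Agent.Results.MP_7b70e8_gt.AOmegaTauLarge
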